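import Pool.Agent.Helper46.RO.Defs

/-!
# Reduction to free abelian quotients
-/

namespace Pool.Agent.Helper62.RO

open Pool.Agent.Helper46.RO

universe u

/-- **A1.** -/
theorem A1 : GoalA1.{u} := by
  intro L _ _ N _ hN
  have hcomm : IsMulCommutative (L ⧸ N) :=
    Subgroup.Normal.quotient_commutative_iff_commutator_le.2 hN
  let : CommGroup (L ⧸ N) :=
    { (inferInstance : Group (L ⧸ N)) with mul_comm := fun a b => hcomm.is_comm.comm a b }
  have : Group.FG (L ⧸ N) := inferInstance
  obtain ⟨ι, j, _, _, p, hp, e, ⟨φ⟩⟩ :=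
    CommGroup.equiv_free_prod_prod_multiplicative_zmod (L ⧸ N)
  have hT : Finite ((i : ι) → Multiplicative (ZMod (p i ^ e i))) := by
    have : ∀ i, NeZero (p i ^ e i) := fun i => ⟨pow_ne_zero _ (hp i).ne_zero⟩
    infer_instance
  let r : j ≃ Fin (Fintype.card j) := Fintype.equivFin j
  let π : L → Fin (Fintype.card j) → ℤ := fun g i =>
    Multiplicative.toAdd ((φ (QuotientGroup.mk g)).1 (r.symm i))
  have hπ : IsHomZ π := by
    intro a b
    funext i
    change Multiplicative.toAdd ((φ (QuotientGroup.mk (a * b))).1 (r.symm i)) = _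
    rw [QuotientGroup.mk_mul, map_mul]
    rfl
  refine ⟨Fintype.card j, π, hπ, ?_, ?_, ?_⟩
  · intro v
    obtain ⟨g, hg⟩ := QuotientGroup.mk_surjective (s := N)
      (φ.symm ((fun i => Multiplicative.ofAdd (v (r i))), 1))
    refine ⟨g, ?_⟩
    funext i
    change Multiplicative.toAdd ((φ (QuotientGroup.mk g)).1 (r.symm i)) = v i
    rw [hg, MulEquiv.apply_symm_apply]
    simp
  · intro g hg
    change π g = 0
    funext i
    change Multiplicative.toAdd ((φ (QuotientGroup.mk g)).1 (r.symm i)) = 0
    rw [(QuotientGroup.eq_one_iff g).2 hg, map_one]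
    rfl
  · intro hfg
    have hle : N ≤ kerZ π hπ := by
      intro g hg
      change π g = 0
      funext i
      change Multiplicative.toAdd ((φ (QuotientGroup.mk g)).1 (r.symm i)) = 0
      rw [(QuotientGroup.eq_one_iff g).2 hg, map_one]
      rfl
    let f : kerZ π hπ →* ((i : ι) → Multiplicative (ZMod (p i ^ e i))) :=
      (MonoidHom.snd _ _).comp (φ.toMonoidHom.comp ((QuotientGroup.mk' N).comp
        (kerZ π hπ).subtype))
    have hker : f.ker = N.subgroupOf (kerZ π hπ) := by
      ext ⟨g, hg⟩
      rw [MonoidHom.mem_ker, Subgroup.mem_subgroupOf]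
      change (φ (QuotientGroup.mk g)).2 = 1 ↔ g ∈ N
      constructor
      · intro h
        have h1 : φ (QuotientGroup.mk g) = 1 := by
          refine Prod.ext ?_ h
          funext i
          have := congrFun (show π g = 0 from hg) (r i)
          change Multiplicative.toAdd ((φ (QuotientGroup.mk g)).1 (r.symm (r i))) = 0 at this
          rw [Equiv.symm_apply_apply] at this
          exact this
        exact (QuotientGroup.eq_one_iff g).1 (by simpa using h1)
      · intro h
        rw [(QuotientGroup.eq_one_iff g).2 h, map_one]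
        rfl
    have : Group.FG (kerZ π hπ) := (Group.fg_iff_subgroup_fg _).2 hfg
    have : f.ker.FiniteIndex := inferInstance
    have h1 : Group.FG f.ker := inferInstance
    rw [hker] at h1
    exact (Group.fg_iff_subgroup_fg N).1
      (Group.fg_of_surjective (f := (Subgroup.subgroupOfEquivOfLe hle).toMonoidHom)
        (Subgroup.subgroupOfEquivOfLe hle).surjective)

end Pool.Agent.Helper62.RO
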