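import Pool.Agent.Helper5.RO.Goals
import Pool.Agent.Helper29.BL.ADD

/-!
# Packet RO-MUL (MP_a41896_nt): the polynomials of the multiplication by `m`
-/

set_option autoImplicit false

namespace Pool.Agent.Helper62.RO

open WeierstrassCurve Polynomial
open Pool.Agent.Helper29.BL Pool.Agent.Helper5.RO

noncomputable section

/-- the three polynomials -/
def sP {K : Type} [Field K] (W : Affine K) (A B : K[X]) : K[X] :=
  (A * X) ^ 2 - C W.b₄ * (A * X) * B - C W.b₆ * (A + B * X) * B - C W.b₈ * B ^ 2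

def tP {K : Type} [Field K] (W : Affine K) (A B : K[X]) : K[X] :=
  2 * (A + B * X) * (A * X) + C W.b₂ * (A * X) * B + C W.b₄ * (A + B * X) * B + C W.b₆ * B ^ 2

def uP {K : Type} [Field K] (A B : K[X]) : K[X] :=
  (A + B * X) ^ 2 - 4 * (A * X) * B

theorem xRep_of_ne {F : Type} [Field F] {W : Affine F} (P : W.Point) (hP : P ≠ 0) :
    P.xRep = ![xc P, 1] := by
  rcases P with _ | ⟨x, y, h⟩
  · exact absurd rfl hP
  · rfl

/-- (ii): the values of the three polynomials -/
theorem triple {K : Type} [Field K] (W : Affine K) [hW : W.IsElliptic] {n : ℕ} {A B : K[X]}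
    (h : MulPol W (n + 1) A B) (F : Type) [Field F] [DecidableEq F] (φ : K →+* F)
    (W' : Affine F) (hW' : W' = W.map φ) (P : W'.Point) (hP : P ≠ 0) :
    ∃ c : F, c ≠ 0 ∧
      (sP W A B).eval₂ φ (xc P) = c * (((n + 2) • P).xRep 0 * (n • P).xRep 0) ∧
      (tP W A B).eval₂ φ (xc P) = c * (((n + 2) • P).xRep 0 * (n • P).xRep 1 +
        ((n + 2) • P).xRep 1 * (n • P).xRep 0) ∧
      (uP A B).eval₂ φ (xc P) = c * (((n + 2) • P).xRep 1 * (n • P).xRep 1) := by
  obtain ⟨σ, hσ, hA, hB⟩ := h.rep F φ W' hW' P hP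
  have hell : W'.IsElliptic := by
    subst hW'
    infer_instance
  obtain ⟨c, hc, hadd⟩ := addSub_correct add dbl xeq F W' ((n + 1) • P) P
  have e1 : (n + 1) • P + P = (n + 2) • P := (succ_nsmul P (n + 1)).symm
  have e2 : (n + 1) • P - P = n • P := by rw [succ_nsmul]; simp
  rw [e1, e2] at hadd
  set X1 := ((n + 1) • P).xRep 0 with hX1
  set Z1 := ((n + 1) • P).xRep 1 with hZ1
  have hs : ((n + 1) • P).sym2x P = ![X1 * xc P, X1 * 1 + Z1 * xc P, Z1 * 1] := by
    simp only [Affine.Point.sym2x, xRep_of_ne P hP]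
    rfl
  rw [hs, addSub_eval] at hadd
  have h0 := congrFun hadd 0
  have h1 := congrFun hadd 1
  have h2 := congrFun hadd 2
  simp only [Affine.Point.sym2x, Pi.smul_apply, smul_eq_mul, Matrix.cons_val_zero,
    Matrix.cons_val_one, Matrix.cons_val_two, Matrix.head_cons, Matrix.tail_cons] at h0 h1 h2
  have hb2 : φ W.b₂ = W'.b₂ := by subst hW'; simp
  have hb4 : φ W.b₄ = W'.b₄ := by subst hW'; simp
  have hb6 : φ W.b₆ = W'.b₆ := by subst hW'; simp
  have hb8 : φ W.b₈ = W'.b₈ := by subst hW'; simp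
  refine ⟨σ ^ 2 * c, mul_ne_zero (pow_ne_zero 2 hσ) hc, ?_, ?_, ?_⟩
  · simp only [sP, eval₂_sub, eval₂_mul, eval₂_pow, eval₂_add, eval₂_X, eval₂_C, hA, hB, hb4,
      hb6, hb8]
    linear_combination σ ^ 2 * h0
  · simp only [tP, eval₂_mul, eval₂_pow, eval₂_add, eval₂_X, eval₂_C, hA, hB, hb2, hb4,
      hb6, eval₂_ofNat]
    linear_combination σ ^ 2 * h1
  · simp only [uP, eval₂_sub, eval₂_mul, eval₂_pow, eval₂_add, eval₂_X, hA, hB, eval₂_ofNat]
    linear_combination σ ^ 2 * h2

theorem exists_point {F : Type} [Field F] [IsAlgClosed F] (W : Affine F) [W.IsElliptic] (x : F) :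
    ∃ P : W.Point, P ≠ 0 ∧ xc P = x := by
  obtain ⟨y, hy⟩ := IsAlgClosed.exists_root
    (X ^ 2 + C (W.a₁ * x + W.a₃) * X + C (-(x ^ 3 + W.a₂ * x ^ 2 + W.a₄ * x + W.a₆)) : F[X]) (by
      have : (X ^ 2 + C (W.a₁ * x + W.a₃) * X +
          C (-(x ^ 3 + W.a₂ * x ^ 2 + W.a₄ * x + W.a₆)) : F[X]).degree = 2 := by
        compute_degree!
      rw [this]
      decide)
  have heq : W.Equation x y := by
    rw [Affine.equation_iff]
    simp only [IsRoot.def, eval_add, eval_mul, eval_pow, eval_X, eval_C] at hy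
    linear_combination hy
  exact ⟨.some x y (Affine.equation_iff_nonsingular.mp heq), fun h => by simp at h, rfl⟩

theorem rep_aeval {K : Type} [Field K] (W : Affine K) [hW : W.IsElliptic] {m : ℕ} {A B : K[X]}
    (h : MulPol W m A B) : IsCoprime A B := by
  classical
  refine (Polynomial.isCoprime_iff_aeval_ne_zero_of_isAlgClosed K (AlgebraicClosure K) A B).2 ?_
  intro x
  set φ := algebraMap K (AlgebraicClosure K)
  have : (W.map φ).IsElliptic := inferInstance
  obtain ⟨P, hP, hx⟩ := exists_point (W.map φ : Affine (AlgebraicClosure K)) x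
  obtain ⟨σ, hσ, hA, hB⟩ := h.rep (AlgebraicClosure K) φ _ rfl P hP
  rw [hx] at hA hB
  by_contra hcon
  push Not at hcon
  have h1 : A.eval₂ φ x = 0 := hcon.1
  have h2 : B.eval₂ φ x = 0 := hcon.2
  rw [h1] at hA
  rw [h2] at hB
  apply Affine.Point.xRep_ne_zero (m • P)
  funext i
  fin_cases i
  · exact (mul_eq_zero.1 hA.symm).resolve_left hσ
  · exact (mul_eq_zero.1 hB.symm).resolve_left hσ

/-- (iii) -/
theorem identity {K : Type} [Field K] (W : Affine K) [hW : W.IsElliptic] {n : ℕ} {A B A' B' : K[X]}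
    (h : MulPol W (n + 1) A B) (h' : MulPol W n A' B') :
    sP W A B * B' ^ 2 - tP W A B * A' * B' + uP A B * A' ^ 2 = 0 := by
  classical
  set φ := algebraMap K (AlgebraicClosure K)
  have hinj : Function.Injective φ := φ.injective
  have : (W.map φ).IsElliptic := inferInstance
  apply Polynomial.map_injective φ hinj
  rw [Polynomial.map_zero]
  apply Polynomial.funext
  intro x
  obtain ⟨P, hP, hx⟩ := exists_point (W.map φ : Affine (AlgebraicClosure K)) x
  obtain ⟨σ, hσ, hA, hB⟩ := h'.rep (AlgebraicClosure K) φ _ rfl P hP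
  obtain ⟨c, hc, h0, h1, h2⟩ := triple W h (AlgebraicClosure K) φ _ rfl P hP
  rw [hx] at hA hB h0 h1 h2
  rw [eval_map, eval_zero]
  simp only [eval₂_sub, eval₂_mul, eval₂_pow, eval₂_add, hA, hB, h0, h1, h2]
  ring

/-- (v) for the values -/
theorem values {F : Type} [Field F] {a b c σ X1 Z1 X2 Z2 : F} (hσ : σ ≠ 0)
    (h1 : σ * X1 * a = c * (X2 * X1)) (h2 : σ * Z1 * b = c * (Z2 * Z1))
    (h3 : a * (σ * Z1) + b * (σ * X1) = c * (X2 * Z1 + Z2 * X1))
    (hne : ¬ (X1 = 0 ∧ Z1 = 0)) :
    a = c / σ * X2 ∧ b = c / σ * Z2 := by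
  have hcan : ∀ {u v : F}, σ * u = c * v → u = c / σ * v := by
    intro u v h
    field_simp
    linear_combination h
  by_cases hX : X1 = 0
  · have hZ : Z1 ≠ 0 := fun h => hne ⟨hX, h⟩
    constructor
    · apply hcan
      apply mul_right_cancel₀ hZ
      subst hX
      linear_combination h3
    · apply hcan
      apply mul_right_cancel₀ hZ
      linear_combination h2
  · by_cases hZ : Z1 = 0
    · constructor
      · apply hcan
        apply mul_right_cancel₀ hX
        linear_combination h1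
      · apply hcan
        apply mul_right_cancel₀ hX
        subst hZ
        linear_combination h3
    · constructor
      · apply hcan
        apply mul_right_cancel₀ hX
        linear_combination h1
      · apply hcan
        apply mul_right_cancel₀ hZ
        linear_combination h2

/-- the degrees of the three polynomials -/
theorem degs {K : Type} [Field K] (W : Affine K) {m : ℕ} {A B : K[X]} (hA : A.Monic)
    (hdA : A.natDegree = (m + 1) ^ 2) (hdB : B.natDegree ≤ (m + 1) ^ 2 - 1) :
    (sP W A B).Monic ∧ (sP W A B).natDegree = 2 * (m + 1) ^ 2 + 2 ∧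
      (tP W A B).natDegree ≤ 2 * (m + 1) ^ 2 + 1 := by
  have hpos : 1 ≤ (m + 1) ^ 2 := Nat.one_le_pow _ _ (by omega)
  set M := (m + 1) ^ 2 with hM
  have hAX : (A * X).natDegree ≤ M + 1 := by
    have := natDegree_mul_le (p := A) (q := (X : K[X]))
    rw [natDegree_X, hdA] at this
    exact this
  have hBX : (A + B * X).natDegree ≤ M := by
    refine (natDegree_add_le _ _).trans (max_le hdA.le ?_)
    have := natDegree_mul_le (p := B) (q := (X : K[X]))
    rw [natDegree_X] at this
    omega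
  have hC : ∀ (c : K) (P : K[X]), (C c * P).natDegree ≤ P.natDegree := fun c P =>
    natDegree_C_mul_le c P
  have h1 : (C W.b₄ * (A * X) * B).natDegree ≤ 2 * M := by
    rw [mul_assoc]
    refine (hC _ _).trans ((natDegree_mul_le).trans ?_)
    omega
  have h2 : ∀ c : K, (C c * (A + B * X) * B).natDegree ≤ 2 * M := by
    intro c
    rw [mul_assoc]
    refine (hC _ _).trans ((natDegree_mul_le).trans ?_)
    omega
  have h3 : ∀ c : K, (C c * B ^ 2).natDegree ≤ 2 * M := by
    intro c
    refine (hC _ _).trans ((natDegree_pow_le).trans ?_)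
    omega
  have h1' : ∀ c : K, (C c * (A * X) * B).natDegree ≤ 2 * M := by
    intro c
    rw [mul_assoc]
    refine (hC _ _).trans ((natDegree_mul_le).trans ?_)
    omega
  have hmon : ((A * X) ^ 2).Monic := (hA.mul monic_X).pow 2
  have hdeg : ((A * X) ^ 2).natDegree = 2 * M + 2 := by
    rw [(hA.mul monic_X).natDegree_pow, hA.natDegree_mul monic_X, hdA, natDegree_X]
    ring
  set R : K[X] := C W.b₄ * (A * X) * B + C W.b₆ * (A + B * X) * B + C W.b₈ * B ^ 2 with hR
  have hRd : R.natDegree ≤ 2 * M :=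
    (natDegree_add_le _ _).trans (max_le ((natDegree_add_le _ _).trans (max_le h1 (h2 _))) (h3 _))
  have hs : sP W A B = (A * X) ^ 2 - R := by
    rw [sP, hR]
    ring
  have hlt : R.degree < ((A * X) ^ 2).degree := by
    rw [degree_eq_natDegree hmon.ne_zero, hdeg]
    refine lt_of_le_of_lt degree_le_natDegree ?_
    exact_mod_cast (by omega : R.natDegree < 2 * M + 2)
  refine ⟨?_, ?_, ?_⟩
  · rw [hs]
    exact hmon.sub_of_left hlt
  · rw [hs, natDegree_sub_eq_left_of_natDegree_lt, hdeg]
    rw [hdeg]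
    omega
  · rw [tP]
    refine (natDegree_add_le _ _).trans (max_le ((natDegree_add_le _ _).trans
      (max_le ((natDegree_add_le _ _).trans (max_le ?_ ((h1' _).trans (by omega))))
        ((h2 _).trans (by omega)))) ((h3 _).trans (by omega)))
    have e : (2 : K[X]) * (A + B * X) * (A * X) = C 2 * ((A + B * X) * (A * X)) := by
      rw [mul_assoc]
      rfl
    rw [e]
    refine (hC _ _).trans ((natDegree_mul_le).trans ?_)
    omega

theorem mulPol_zero {K : Type} [Field K] (W : Affine K) : MulPol W 0 1 0 where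
  monic := monic_one
  degA := by simp
  degB := by
    rw [degree_zero]
    exact WithBot.bot_lt_coe _
  rep F _ _ φ W' hW' P hP := ⟨1, one_ne_zero, by simp, by simp⟩

theorem mulPol_one {K : Type} [Field K] (W : Affine K) : MulPol W 1 X 1 where
  monic := monic_X
  degA := by simp
  degB := by
    rw [degree_one]
    norm_num
  rep F _ _ φ W' hW' P hP := ⟨1, one_ne_zero, by
    rw [one_smul, xRep_of_ne P hP]
    simp, by
    rw [one_smul, xRep_of_ne P hP]
    simp⟩

theorem natDegree_of_degree_lt {K : Type} [Field K] {B : K[X]} {n : ℕ} (hn : 1 ≤ n)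
    (h : B.degree < (n : ℕ)) : B.natDegree ≤ n - 1 := by
  by_cases hB : B = 0
  · subst hB
    simp
  · have := (natDegree_lt_iff_degree_lt hB).2 h
    omega

theorem step {K : Type} [Field K] (W : Affine K) [hW : W.IsElliptic] {n : ℕ} {A B A' B' : K[X]}
    (h : MulPol W (n + 1) A B) (h' : MulPol W n A' B') : ∃ A'' B'', MulPol W (n + 2) A'' B'' := by
  have hid := identity W h h'
  have hpos : 1 ≤ (n + 1) ^ 2 := Nat.one_le_pow _ _ (by omega)
  have hdB := natDegree_of_degree_lt hpos h.degB
  obtain ⟨hsm, hsd, htd⟩ := degs W h.monic h.degA hdB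
  -- the two polynomials
  have key : ∃ A'' B'' : K[X], sP W A B = A' * A'' ∧ uP A B = B' * B'' ∧
      tP W A B = A'' * B' + B'' * A' ∧ B''.natDegree ≤ (n + 2) ^ 2 - 1 := by
    rcases Nat.eq_zero_or_pos n with rfl | hn
    · have hA1 : A' = 1 := by
        apply eq_one_of_monic_natDegree_zero h'.monic
        rw [h'.degA]
        norm_num
      have hB0 : B' = 0 := by
        have := h'.degB
        rw [← degree_eq_bot]
        have h5 : B'.degree < 0 := by simpa using this
        exact Nat.WithBot.lt_zero_iff.1 h5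
      subst hA1 hB0
      refine ⟨sP W A B, tP W A B, by simp, ?_, by simp, ?_⟩
      · simpa using hid
      · simpa using htd
    · have hcop := rep_aeval W h'
      have hA0 : A' ≠ 0 := h'.monic.ne_zero
      have hB0 : B' ≠ 0 := by
        intro hB
        rw [hB, isCoprime_zero_right] at hcop
        have h5 := natDegree_eq_zero_of_isUnit hcop
        rw [h'.degA] at h5
        have : 0 < n ^ 2 := Nat.pow_pos hn
        omega
      have hd1 : B' ∣ uP A B := by
        have h5 : B' ∣ uP A B * A' ^ 2 :=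
          ⟨tP W A B * A' - sP W A B * B', by linear_combination hid⟩
        exact (hcop.symm.pow_right).dvd_of_dvd_mul_right h5
      have hd2 : A' ∣ sP W A B := by
        have h5 : A' ∣ sP W A B * B' ^ 2 :=
          ⟨tP W A B * B' - uP A B * A', by linear_combination hid⟩
        exact (hcop.pow_right).dvd_of_dvd_mul_right h5
      obtain ⟨A'', hA''⟩ := hd2
      obtain ⟨B'', hB''⟩ := hd1
      have ht : tP W A B = A'' * B' + B'' * A' := by
        rw [hA'', hB''] at hid
        have h6 : A' * B' * (A'' * B' + B'' * A' - tP W A B) = 0 := by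
          linear_combination hid
        have h7 := (mul_eq_zero.1 h6).resolve_left (mul_ne_zero hA0 hB0)
        linear_combination -h7
      refine ⟨A'', B'', hA'', hB'', ht, ?_⟩
      have hn2 : 1 ≤ n ^ 2 := Nat.one_le_pow _ _ hn
      have hA''0 : A'' ≠ 0 := by
        intro h0
        rw [h0, mul_zero] at hA''
        exact hsm.ne_zero hA''
      have hdA'' : n ^ 2 + A''.natDegree = 2 * (n + 1) ^ 2 + 2 := by
        rw [← hsd, hA'', natDegree_mul hA0 hA''0, h'.degA]
      have hdB' := natDegree_of_degree_lt hn2 h'.degB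
      by_cases hB''0 : B'' = 0
      · rw [hB''0]
        simp
      · have h8 : B'' * A' = tP W A B - A'' * B' := by rw [ht]; ring
        have h9 : (B'' * A').natDegree ≤ 2 * (n + 1) ^ 2 + 1 := by
          rw [h8]
          refine (natDegree_sub_le _ _).trans (max_le htd ((natDegree_mul_le).trans ?_))
          omega
        rw [natDegree_mul hB''0 hA0, h'.degA] at h9
        have e : (n + 2) ^ 2 + n ^ 2 = 2 * (n + 1) ^ 2 + 2 := by ring
        omega
  obtain ⟨A'', B'', hA'', hB'', ht, hdB''⟩ := key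
  have hA0 : A' ≠ 0 := h'.monic.ne_zero
  have hA''0 : A'' ≠ 0 := by
    intro h0
    rw [h0, mul_zero] at hA''
    exact hsm.ne_zero hA''
  have e : (n + 2) ^ 2 + n ^ 2 = 2 * (n + 1) ^ 2 + 2 := by ring
  have hdA'' : n ^ 2 + A''.natDegree = 2 * (n + 1) ^ 2 + 2 := by
    rw [← hsd, hA'', natDegree_mul hA0 hA''0, h'.degA]
  refine ⟨A'', B'', ?_, by omega, ?_, ?_⟩
  · rw [hA''] at hsm
    exact h'.monic.of_mul_monic_left hsm
  · refine lt_of_le_of_lt degree_le_natDegree ?_
    have hpos2 : 1 ≤ (n + 2) ^ 2 := Nat.one_le_pow _ _ (by omega)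
    exact_mod_cast (by omega : B''.natDegree < (n + 2) ^ 2)
  · intro F _ _ φ W' hW' P hP
    obtain ⟨σ, hσ, hA1, hB1⟩ := h'.rep F φ W' hW' P hP
    obtain ⟨c, hc, h0, h1, h2⟩ := triple W h F φ W' hW' P hP
    rw [hA'', eval₂_mul, hA1] at h0
    rw [hB'', eval₂_mul, hB1] at h2
    rw [ht, eval₂_add, eval₂_mul, eval₂_mul, hA1, hB1] at h1
    have hne : ¬ ((n • P).xRep 0 = 0 ∧ (n • P).xRep 1 = 0) := by
      rintro ⟨h5, h6⟩
      apply Affine.Point.xRep_ne_zero (n • P)
      funext i
      fin_cases i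
      · exact h5
      · exact h6
    obtain ⟨h7, h8⟩ := values hσ h0 h2 h1 hne
    exact ⟨c / σ, div_ne_zero hc hσ, h7, h8⟩

theorem gMUL : G_MUL := by
  intro K _ _ W _ m
  have key : ∀ m, (∃ A B, MulPol W m A B) ∧ (∃ A B, MulPol W (m + 1) A B) := by
    intro m
    induction m with
    | zero => exact ⟨⟨1, 0, mulPol_zero W⟩, ⟨X, 1, mulPol_one W⟩⟩
    | succ m ih =>
      obtain ⟨⟨A', B', h'⟩, ⟨A, B, h⟩⟩ := ih
      exact ⟨⟨A, B, h⟩, step W h h'⟩
  exact (key m).1

end

end Pool.Agent.Helper62.RO
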